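import Mathlib

set_option autoImplicit false

namespace Pool.Agent.N821.CS

open scoped InnerProductSpace NNReal Topology
open Filter TopologicalSpace

universe u

/-- A contraction `C₀`-semigroup on the complex Hilbert space `H`. -/
@[ext] structure CSG (H : Type u) [NormedAddCommGroup H] [InnerProductSpace ℂ H] where
  op : ℝ≥0 → (H →L[ℂ] H)
  zero : op 0 = 1
  add : ∀ s t, op (s + t) = op s * op t
  cont : ∀ x, Continuous fun t => op t x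
  norm_le : ∀ t, ‖op t‖ ≤ 1

variable {H : Type u} [NormedAddCommGroup H] [InnerProductSpace ℂ H]

/-- The quotient `sup_{0 ≤ t ≤ n} |⟨(T(t) - S(t)) x_i, x_j⟩| / (‖x_i‖ ‖x_j‖)`. -/
noncomputable def term (x : ℕ → H) (T S : CSG H) (n i j : ℕ) : ℝ :=
  (⨆ t : {t : ℝ≥0 // t ≤ n}, ‖⟪(T.op t - S.op t) (x i), x j⟫_ℂ‖) / (‖x i‖ * ‖x j‖)

/-- The metric `d` (the sequence `x_1, x_2, …` is `x 0, x 1, …`). -/
noncomputable def d (x : ℕ → H) (T S : CSG H) : ℝ :=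
  ∑' p : ℕ × ℕ × ℕ, (1 / 2 : ℝ) ^ ((p.1 + 1) + (p.2.1 + 1) + (p.2.2 + 1)) *
    term x T S (p.1 + 1) p.2.1 p.2.2

/-- isometric semigroups -/
def Iso (V : CSG H) : Prop := ∀ t x, ‖V.op t x‖ = ‖x‖

/-- the kernel of the dilation -/
noncomputable def ker (T : CSG H) (s t : ℝ≥0) (u v : H) : ℂ :=
  if s ≤ t then ⟪u, T.op (t - s) v⟫_ℂ else ⟪T.op (s - t) u, v⟫_ℂ

/-- POS: the kernel is positive definite. -/
def S_POS : Prop := ∀ (H : Type u) [NormedAddCommGroup H] [InnerProductSpace ℂ H] (T : CSG H)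
  (f : ℝ≥0 →₀ H), 0 ≤ (f.sum fun s u => f.sum fun t v => ker T s t u v).re

/-- GNS: the isometric dilation, algebraic part. -/
def S_GNS : Prop := ∀ (H : Type u) [NormedAddCommGroup H] [InnerProductSpace ℂ H] (T : CSG H),
  ∃ (K : Type u) (_ : NormedAddCommGroup K) (_ : InnerProductSpace ℂ K) (_ : CompleteSpace K)
    (V : ℝ≥0 → (K →L[ℂ] K)) (δ : ℝ≥0 → (H →ₗᵢ[ℂ] K)),
    (∀ r k, ‖V r k‖ = ‖k‖) ∧ (∀ r s h, V r (δ s h) = δ (s + r) h) ∧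
    (∀ s t u v, ⟪δ s u, δ t v⟫_ℂ = ker T s t u v) ∧
    (Submodule.span ℂ (⋃ s, Set.range (δ s))).topologicalClosure = ⊤

/-- DIL: the isometric dilation. -/
def S_DIL : Prop := ∀ (H : Type u) [NormedAddCommGroup H] [InnerProductSpace ℂ H]
  [SeparableSpace H] (T : CSG H),
  ∃ (K : Type u) (_ : NormedAddCommGroup K) (_ : InnerProductSpace ℂ K) (_ : CompleteSpace K)
    (_ : SeparableSpace K) (V : CSG K) (ι : H →ₗᵢ[ℂ] K),
    Iso V ∧ ∀ t x y, ⟪V.op t (ι x), ι y⟫_ℂ = ⟪T.op t x, y⟫_ℂ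

/-- UNI: identification of the two Hilbert spaces, fixing finitely many vectors. -/
def S_UNI : Prop := ∀ (H K : Type u) [NormedAddCommGroup H] [InnerProductSpace ℂ H]
  [CompleteSpace H] [SeparableSpace H] [NormedAddCommGroup K] [InnerProductSpace ℂ K]
  [CompleteSpace K] [SeparableSpace K] (_ : ¬ FiniteDimensional ℂ H) (ι : H →ₗᵢ[ℂ] K)
  (N : ℕ) (x : ℕ → H), ∃ W : K ≃ₗᵢ[ℂ] H, ∀ i < N, W (ι (x i)) = x i

/-- MET: `d` is a metric. -/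
def S_MET : Prop := ∀ (H : Type u) [NormedAddCommGroup H] [InnerProductSpace ℂ H]
  (x : ℕ → H), DenseRange x → (∀ i, x i ≠ 0) →
  ∃ m : MetricSpace (CSG H), ∀ T S, m.dist T S = d x T S

/-- DA: a small distance makes finitely many matrix entries close. -/
def S_DA : Prop := ∀ (H : Type u) [NormedAddCommGroup H] [InnerProductSpace ℂ H]
  (x : ℕ → H), (∀ i, x i ≠ 0) → ∀ (N : ℕ) (ε : ℝ), 0 < ε → ∃ δ : ℝ, 0 < δ ∧
    ∀ T S : CSG H, d x T S < δ → ∀ i < N, ∀ j < N, ∀ t : ℝ≥0, t ≤ N →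
      ‖⟪(T.op t - S.op t) (x i), x j⟫_ℂ‖ < ε

/-- DB: close matrix entries make the distance small. -/
def S_DB : Prop := ∀ (H : Type u) [NormedAddCommGroup H] [InnerProductSpace ℂ H]
  (x : ℕ → H), (∀ i, x i ≠ 0) → ∀ ε : ℝ, 0 < ε → ∃ (N : ℕ) (δ : ℝ), 0 < δ ∧
    ∀ T S : CSG H, (∀ i < N, ∀ j < N, ∀ t : ℝ≥0, t ≤ N →
      ‖⟪(T.op t - S.op t) (x i), x j⟫_ℂ‖ < δ) → d x T S < ε

/-- WS: on isometric semigroups weak closeness gives strong closeness. -/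
def S_WS : Prop := ∀ (H : Type u) [NormedAddCommGroup H] [InnerProductSpace ℂ H]
  (x : ℕ → H), DenseRange x → ∀ V : CSG H, Iso V → ∀ (N : ℕ) (ε : ℝ), 0 < ε →
  ∃ (M : ℕ) (δ : ℝ), 0 < δ ∧ ∀ V' : CSG H, Iso V' →
    (∀ i < M, ∀ j < M, ∀ t : ℝ≥0, t ≤ M → ‖⟪(V.op t - V'.op t) (x i), x j⟫_ℂ‖ < δ) →
    ∀ i < N, ∀ t : ℝ≥0, t ≤ N → ‖V'.op t (x i) - V.op t (x i)‖ < ε

/-- LIM: completeness of the isometric semigroups. -/
def S_LIM : Prop := ∀ (H : Type u) [NormedAddCommGroup H] [InnerProductSpace ℂ H]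
  [CompleteSpace H] (x : ℕ → H), DenseRange x → ∀ V : ℕ → CSG H, (∀ k, Iso (V k)) →
  (∀ (N : ℕ) (ε : ℝ), 0 < ε → ∃ k₀, ∀ k ≥ k₀, ∀ l ≥ k₀, ∀ i < N, ∀ t : ℝ≥0, t ≤ N →
    ‖(V k).op t (x i) - (V l).op t (x i)‖ < ε) →
  ∃ W : CSG H, Iso W ∧ ∀ (N : ℕ) (ε : ℝ), 0 < ε → ∃ k₀, ∀ k ≥ k₀, ∀ i < N, ∀ t : ℝ≥0, t ≤ N →
    ‖(V k).op t (x i) - W.op t (x i)‖ < ε

end Pool.Agent.N821.CS
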