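import Mathlib
import Pool.Agent.N821.CS.Stm

set_option autoImplicit false

namespace Pool.Agent.N821.CS

open scoped InnerProductSpace NNReal Topology
open Filter TopologicalSpace Metric

universe u

variable {H : Type u} [NormedAddCommGroup H] [InnerProductSpace ℂ H]

/-- transport of a semigroup along a unitary operator -/
noncomputable def conj {K : Type u} [NormedAddCommGroup K] [InnerProductSpace ℂ K]
    (W : K ≃ₗᵢ[ℂ] H) (V : CSG K) : CSG H where
  op t := (W.toContinuousLinearEquiv : K →L[ℂ] H) ∘L V.op t ∘L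
    (W.symm.toContinuousLinearEquiv : H →L[ℂ] K)
  zero := by
    ext x
    simp [V.zero]
  add s t := by
    ext x
    simp [V.add]
  cont x := by
    have := V.cont (W.symm x)
    exact W.continuous.comp this
  norm_le t := by
    refine ContinuousLinearMap.opNorm_le_bound _ zero_le_one fun x => ?_
    have h1 : ‖V.op t (W.symm x)‖ ≤ 1 * ‖W.symm x‖ :=
      (V.op t).le_of_opNorm_le (V.norm_le t) _
    simpa using h1

theorem den (hD : S_DIL.{u}) (hU : S_UNI.{u}) (hB : S_DB.{u})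
    [CompleteSpace H] [SeparableSpace H] (hinf : ¬ FiniteDimensional ℂ H) (x : ℕ → H)
    (hx : ∀ i, x i ≠ 0) (T : CSG H) (ε : ℝ) (hε : 0 < ε) :
    ∃ V : CSG H, Iso V ∧ d x T V < ε := by
  obtain ⟨N, δ, hδ, h1⟩ := hB H x hx ε hε
  obtain ⟨K, i1, i2, i3, i4, V, ι, hV, hk⟩ := hD H T
  obtain ⟨W, hW⟩ := hU H K hinf ι N x
  refine ⟨conj W V, ?_, ?_⟩
  · intro t y
    change ‖W (V.op t (W.symm y))‖ = ‖y‖
    rw [W.norm_map, hV, W.symm.norm_map]
  · refine h1 T (conj W V) fun i hi j hj t _ => ?_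
    have e1 : (conj W V).op t (x i) = W (V.op t (ι (x i))) := by
      change W (V.op t (W.symm (x i))) = _
      rw [← hW i hi, W.symm_apply_apply]
      rw [hW i hi]
    have e2 : ⟪(conj W V).op t (x i), x j⟫_ℂ = ⟪T.op t (x i), x j⟫_ℂ := by
      rw [e1]
      calc ⟪W (V.op t (ι (x i))), x j⟫_ℂ = ⟪W (V.op t (ι (x i))), W (ι (x j))⟫_ℂ := by rw [hW j hj]
        _ = ⟪V.op t (ι (x i)), ι (x j)⟫_ℂ := W.inner_map_map _ _
        _ = _ := hk t _ _
    have e3 : ⟪(T.op t - (conj W V).op t) (x i), x j⟫_ℂ = 0 := by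
      rw [ContinuousLinearMap.sub_apply, inner_sub_left, e2, sub_self]
    rw [e3, norm_zero]
    exact hδ

theorem baire (hD : S_DIL.{u}) (hU : S_UNI.{u}) (hM : S_MET.{u}) (hA : S_DA.{u}) (hB : S_DB.{u})
    (hW : S_WS.{u}) (hL : S_LIM.{u})
    [CompleteSpace H] [SeparableSpace H] (hinf : ¬ FiniteDimensional ℂ H) (x : ℕ → H)
    (hdense : DenseRange x) (hx : ∀ i, x i ≠ 0) :
    ∃ m : MetricSpace (CSG H), (∀ T S, m.dist T S = d x T S) ∧
      @BaireSpace (CSG H) m.toUniformSpace.toTopologicalSpace := by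
  obtain ⟨m, hm⟩ := hM H x hdense hx
  refine ⟨m, hm, ?_⟩
  letI := m
  have hd : ∀ T S : CSG H, dist T S = d x T S := hm
  refine ⟨fun U hUo hUd => ?_⟩
  rw [Metric.dense_iff]
  intro T₀ r₀ hr₀
  -- the step
  have step : ∀ (k : ℕ) (p : {p : CSG H × ℝ // Iso p.1 ∧ 0 < p.2}),
      ∃ q : {p : CSG H × ℝ // Iso p.1 ∧ 0 < p.2},
        closedBall q.1.1 q.1.2 ⊆ U k ∧ closedBall q.1.1 q.1.2 ⊆ closedBall p.1.1 p.1.2 ∧
        ∀ V' : CSG H, Iso V' → V' ∈ closedBall q.1.1 q.1.2 →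
          ∀ i < k, ∀ t : ℝ≥0, t ≤ k → ‖V'.op t (x i) - q.1.1.op t (x i)‖ < 1 / (k + 1 : ℝ) := by
    intro k p
    obtain ⟨S, hS1, hS2⟩ := (Metric.dense_iff.1 (hUd k)) p.1.1 p.1.2 p.2.2
    have ho : IsOpen (U k ∩ ball p.1.1 p.1.2) := (hUo k).inter isOpen_ball
    obtain ⟨r, hr, hrs⟩ := Metric.isOpen_iff.1 ho S ⟨hS2, hS1⟩
    obtain ⟨V', hV'1, hV'2⟩ := den hD hU hB hinf x hx S (r / 2) (by positivity)
    obtain ⟨M, δ, hδ, h3⟩ := hW H x hdense V' hV'1 k (1 / (k + 1 : ℝ)) (by positivity)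
    obtain ⟨η, hη, h4⟩ := hA H x hx M δ hδ
    have h5 : closedBall V' (min (r / 4) (η / 2)) ⊆ ball S r := by
      intro Z hZ
      rw [mem_closedBall] at hZ
      rw [mem_ball]
      have := dist_triangle Z V' S
      have h6 : dist V' S < r / 2 := by rw [dist_comm, hd]; exact hV'2
      have h7 : dist Z V' ≤ r / 4 := hZ.trans (min_le_left _ _)
      linarith
    refine ⟨⟨(V', min (r / 4) (η / 2)), hV'1, by positivity⟩, ?_, ?_, ?_⟩
    · exact fun Z hZ => (hrs (h5 hZ)).1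
    · exact fun Z hZ => ball_subset_closedBall (hrs (h5 hZ)).2
    · intro V'' hV'' hmem i hi t ht
      refine h3 V'' hV'' (fun a ha b hb s hs => ?_) i hi t ht
      refine h4 V' V'' ?_ a ha b hb s hs
      rw [← hd, dist_comm]
      rw [mem_closedBall] at hmem
      have : dist V'' V' ≤ η / 2 := hmem.trans (min_le_right _ _)
      linarith
  choose nxt n1 n2 n3 using step
  obtain ⟨V₀, hV₀, hV₀d⟩ := den hD hU hB hinf x hx T₀ (r₀ / 2) (by positivity)
  let p : ℕ → {p : CSG H × ℝ // Iso p.1 ∧ 0 < p.2} := fun n =>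
    Nat.rec ⟨(V₀, r₀ / 4), hV₀, by positivity⟩ (fun k q => nxt k q) n
  have hp : ∀ k, p (k + 1) = nxt k (p k) := fun k => rfl
  have mono : ∀ k l, k ≤ l → closedBall (p l).1.1 (p l).1.2 ⊆ closedBall (p k).1.1 (p k).1.2 := by
    intro k l hkl
    induction l, hkl using Nat.le_induction with
    | base => exact subset_rfl
    | succ l _ ih =>
      refine subset_trans ?_ ih
      rw [hp]
      exact n2 l (p l)
  have mem : ∀ k l, k ≤ l → (p l).1.1 ∈ closedBall (p k).1.1 (p k).1.2 := fun k l hkl =>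
    mono k l hkl (mem_closedBall_self (p l).2.2.le)
  have hC : ∀ (N : ℕ) (ε : ℝ), 0 < ε → ∃ k₀, ∀ k ≥ k₀, ∀ l ≥ k₀, ∀ i < N, ∀ t : ℝ≥0, t ≤ N →
      ‖(p k).1.1.op t (x i) - (p l).1.1.op t (x i)‖ < ε := by
    intro N ε hε
    obtain ⟨k₁, hk₁⟩ := exists_nat_one_div_lt (half_pos hε)
    set k := max k₁ N with hk
    have hk2 : (1 : ℝ) / (k + 1) < ε / 2 := by
      refine lt_of_le_of_lt ?_ hk₁
      apply one_div_le_one_div_of_le (by positivity)
      have : (k₁ : ℝ) ≤ k := by exact_mod_cast le_max_left _ _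
      linarith
    have key : ∀ a ≥ k + 1, ∀ i < N, ∀ t : ℝ≥0, t ≤ N →
        ‖(p a).1.1.op t (x i) - (p (k + 1)).1.1.op t (x i)‖ < ε / 2 := by
      intro a ha i hi t ht
      have hmem := mem (k + 1) a ha
      rw [hp] at hmem
      have := n3 k (p k) (p a).1.1 (p a).2.1 hmem i (lt_of_lt_of_le hi (le_max_right _ _)) t
        (ht.trans (by exact_mod_cast le_max_right _ _))
      rw [← hp] at this
      exact this.trans hk2
    refine ⟨k + 1, fun a ha b hb i hi t ht => ?_⟩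
    have e1 := key a ha i hi t ht
    have e2 := key b hb i hi t ht
    have e3 := norm_sub_le ((p a).1.1.op t (x i) - (p (k + 1)).1.1.op t (x i))
      ((p b).1.1.op t (x i) - (p (k + 1)).1.1.op t (x i))
    rw [sub_sub_sub_cancel_right] at e3
    linarith
  obtain ⟨W, hW1, hW2⟩ := hL H x hdense (fun k => (p k).1.1) (fun k => (p k).2.1) hC
  have hlim : Tendsto (fun k => (p k).1.1) atTop (𝓝 W) := by
    rw [Metric.tendsto_atTop]
    intro ε hε
    obtain ⟨N, δ, hδ, h6⟩ := hB H x hx ε hε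
    obtain ⟨R, hR0, hR⟩ : ∃ R : ℝ, 0 < R ∧ ∀ j < N, ‖x j‖ ≤ R := by
      refine ⟨∑ j ∈ Finset.range N, ‖x j‖ + 1, by positivity, fun j hj => ?_⟩
      have h := Finset.single_le_sum (f := fun j => ‖x j‖) (fun i _ => norm_nonneg _)
        (Finset.mem_range.2 hj)
      linarith
    obtain ⟨k₀, hk₀⟩ := hW2 N (δ / R) (by positivity)
    refine ⟨k₀, fun k hk => ?_⟩
    rw [hd]
    refine h6 _ _ fun i hi j hj t ht => ?_
    have e1 := hk₀ k hk i hi t ht
    calc ‖⟪((p k).1.1.op t - W.op t) (x i), x j⟫_ℂ‖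
        ≤ ‖((p k).1.1.op t - W.op t) (x i)‖ * ‖x j‖ := norm_inner_le_norm _ _
      _ ≤ ‖((p k).1.1.op t - W.op t) (x i)‖ * R := by gcongr; exact hR j hj
      _ < δ / R * R := by
        refine mul_lt_mul_of_pos_right ?_ hR0
        simpa using e1
      _ = δ := by field_simp
  have hWmem : ∀ k, W ∈ closedBall (p k).1.1 (p k).1.2 := fun k =>
    isClosed_closedBall.mem_of_tendsto hlim (eventually_atTop.2 ⟨k, fun l hl => mem k l hl⟩)
  refine ⟨W, ?_, ?_⟩
  · have h8 := hWmem 0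
    have h9 : dist W V₀ ≤ r₀ / 4 := h8
    rw [mem_ball]
    have h10 := dist_triangle W V₀ T₀
    have h11 : dist V₀ T₀ < r₀ / 2 := by rw [dist_comm, hd]; exact hV₀d
    linarith
  · rw [Set.mem_iInter]
    intro k
    have h8 := hWmem (k + 1)
    rw [hp] at h8
    exact n1 k (p k) h8

end Pool.Agent.N821.CS
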