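import Mathlib
import Pool.Agent.N821.CS.Asm
import Pool.Agent.N933.CS.WS
import Pool.Agent.N764.CS.LIM
import Pool.Agent.N897.CS.StrongCont
import Pool.Agent.N492.CS.DA
import Pool.Agent.N596.CS.POS
import Pool.Agent.N286.CS.MET
import Pool.Agent.N143.CS.DB
import Pool.Agent.N691.CS.GNS
import Pool.Agent.N717.CS.UNI

/-!
# The space of contraction semigroups is a Baire space

The set of all contraction `C₀`-semigroups on a separable infinite-dimensional complex Hilbert
space with the metric `d` of weak convergence, locally uniform in time, is a Baire space.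

Isometric semigroups are dense: an isometric dilation of the given semigroup is identified with
a semigroup on the same space by a unitary operator that fixes finitely many vectors.  On isometric
semigroups the weak convergence implies the strong one, and the isometric semigroups are complete
for strong convergence.
-/

set_option autoImplicit false

universe u

namespace Pool.Agent.N821.CS.Main

open Pool.Agent.N821.CS (CSG d)

theorem result (H : Type u) [NormedAddCommGroup H] [InnerProductSpace ℂ H] [CompleteSpace H]
    [TopologicalSpace.SeparableSpace H] (hinf : ¬ FiniteDimensional ℂ H)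
    (x : ℕ → H) (hdense : DenseRange x) (hx : ∀ j, x j ≠ 0) :
    ∃ m : MetricSpace (CSG H), (∀ T S, m.dist T S = d x T S) ∧
      @BaireSpace (CSG H) m.toUniformSpace.toTopologicalSpace := by
  have hGNS : Pool.Agent.N821.CS.S_GNS.{u} := Pool.Agent.N691.CS.t Pool.Agent.N596.CS.t
  have hDIL : Pool.Agent.N821.CS.S_DIL.{u} := Pool.Agent.N897.CS.t hGNS
  exact Pool.Agent.N821.CS.baire hDIL Pool.Agent.N717.CS.t Pool.Agent.N286.CS.t
    Pool.Agent.N492.CS.DA.t Pool.Agent.N143.CS.t Pool.Agent.N933.CS.WS.t Pool.Agent.N764.CS.LIM.t
    hinf x hdense hx

end Pool.Agent.N821.CS.Main
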